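import Pool.Agent.helper27.PC2.REPQ

/-!
# PC project, second half: NFB2, the formula for `N` of the standard elements of `W(B_n)`
-/

namespace Pool.Agent.helper27.PC

open Module Polynomial

theorem NFB2_pos_lt {n : ℕ} (α : List ℕ) : ∀ k, (∀ a ∈ α, 1 ≤ a) → k + α.sum ≤ n →
    ∀ i ∈ posWord k α, i < n := by
  induction α with
  | nil => intro k _ _ i hi; simp [posWord] at hi
  | cons a l ih =>
    intro k hl hk i hi
    rw [List.sum_cons] at hk
    have ha : 1 ≤ a := hl a (by simp)
    simp only [posWord, List.mem_append, List.mem_range'_1] at hi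
    rcases hi with hi | hi
    · omega
    · exact ih (k + a) (fun b hb => hl b (by simp [hb])) (by omega) i hi

/-- the letters of the standard word are smaller than `n` -/
theorem NFB2_lt {n : ℕ} {β α : List ℕ} (h : Typ n β α) : ∀ i ∈ word2 β α, i < n := by
  obtain ⟨h1, -, h2, h3⟩ := h
  intro i hi
  unfold word2 at hi
  rw [List.mem_append] at hi
  rcases hi with hi | hi
  · exact LEN_word_lt β h1 0 (by omega) i hi
  · exact NFB2_pos_lt α β.sum h2 (by omega) i hi

theorem NFB2_lenT (l : List ℕ) : lenT true l = l.length := by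
  unfold lenT
  simp

theorem NFB2 (hTR : TR_stmt) (hLEN : LEN2B_stmt) (hTW : TW_stmt) : NFB2_stmt := by
  classical
  intro n H _ _ T hn hT β α hty K _ _ hinj
  have hlt : ∀ i ∈ word2 β α, i < n := NFB2_lt hty
  have hlt' : ∀ i ∈ (word2 β α).reverse, i < n := fun i hi => hlt i (by simpa using hi)
  have hlen : len (std2 n β α) = (word2 β α).length := (hLEN n β α hty).1
  have h1 : T (std2 n β α) = ((word2 β α).map fun i => T (g n i)).prod :=
    (hTW n H T hT).2 _ hlt hlen
  have h2 : T (std2 n β α)⁻¹ = ((word2 β α).reverse.map fun i => T (g n i)).prod := by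
    have e : (std2 n β α)⁻¹ = ((word2 β α).reverse.map (g n)).prod := NF_prod_inv _
    rw [e]
    apply (hTW n H T hT).2 _ hlt'
    rw [← e, NF_len_inv, hlen, List.length_reverse]
  have hN : N T (std2 n β α) = v ^ (2 * len (std2 n β α)) * LinearMap.trace A H
      (LinearMap.mulLeft A (((word2 β α).map fun i => T (g n i)).prod) ∘ₗ
      LinearMap.mulRight A (((word2 β α).reverse.map fun i => T (g n i)).prod)) := by
    have e0 : ∀ (c : A) (a b : H), LinearMap.mulLeft A (c • a) ∘ₗ LinearMap.mulRight A b =
        c • (LinearMap.mulLeft A a ∘ₗ LinearMap.mulRight A b) := by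
      intro c a b
      ext x
      simp
    unfold N
    rw [← h1, ← h2, e0, (LinearMap.trace A H).map_smul, smul_eq_mul]
  rw [hN, map_mul, hTR n H T hT hn K hinj _ _ hlt hlt', hlen, map_pow, Finset.mul_sum]
  have hQ : Qt true (algebraMap A K v) = algebraMap A K v := rfl
  rw [hQ, NFB2_lenT]
  refine Finset.sum_congr rfl fun S _ => ?_
  rw [opWQ_v, opWQ_v, two_mul, pow_add]
  ring

end Pool.Agent.helper27.PC
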