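import Pool.Agent.helper27.PC2.REPQ
import Pool.Agent.helper18.PC2.HOMQ

/-!
# PC project, second half: TRD, the trace formula in type `D_n`
-/

namespace Pool.Agent.helper27.PC

open Module Polynomial TensorProduct

/-! ### exchange of the components -/

theorem TRD_inv (l : Lab) : flipL (flipL l) = l := by
  simp [flipL]

theorem TRD_inj : Function.Injective flipL := fun a b h => by
  rw [← TRD_inv a, h, TRD_inv]

theorem TRD_eq (y z : Lab) : y = flipL z ↔ flipL y = z :=
  ⟨fun h => by rw [h, TRD_inv], fun h => by rw [← h, TRD_inv]⟩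

theorem TRD_up (a : ℕ) (l : Lab) : up a (flipL l) = flipL (up a l) := rfl

theorem TRD_mem_flip (S : St) (l : Lab) : l ∈ flip S ↔ flipL l ∈ S := by
  unfold flip
  rw [Finset.mem_image]
  constructor
  · rintro ⟨y, hy, rfl⟩
    rwa [TRD_inv]
  · intro h
    exact ⟨flipL l, h, TRD_inv l⟩

theorem TRD_flip_inv (S : St) : flip (flip S) = S := by
  ext y
  rw [TRD_mem_flip, TRD_mem_flip, TRD_inv]

theorem TRD_addable (S : St) (l : Lab) : flipL l ∈ addable 1 (flip S) ↔ l ∈ addable 1 S := by
  rw [SURJ_addable, SURJ_addable, TRD_mem_flip, TRD_up, TRD_mem_flip, TRD_inv, TRD_inv]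

theorem TRD_move (S : St) (l : Lab) : move 1 (flip S) (flipL l) = flip (move 1 S l) := by
  ext y
  rw [SURJ_mem_move, TRD_mem_flip, TRD_mem_flip, SURJ_mem_move, TRD_up, ne_eq, ne_eq, TRD_eq, TRD_eq]

theorem TRD_paths : ∀ (n : ℕ) (S S' : St) (w : List Lab),
    w.map flipL ∈ paths n (flip S) (flip S') ↔ w ∈ paths n S S'
  | 0, S, S', w => by
      rw [SURJ_zero, SURJ_zero, List.map_eq_nil_iff]
      constructor
      · rintro ⟨h1, h2⟩
        exact ⟨h1, by rw [← TRD_flip_inv S, h2, TRD_flip_inv]⟩
      · rintro ⟨h1, rfl⟩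
        exact ⟨h1, rfl⟩
  | n + 1, S, S', [] => by simp [SURJ_nil_mem]
  | n + 1, S, S', l :: w => by
      rw [List.map_cons, SURJ_cons_mem, SURJ_cons_mem, TRD_addable, TRD_move, TRD_paths n]

theorem TRD_vac (m : ℕ) : flip (vac m) = vac m := by
  ext y
  rw [TRD_mem_flip]
  simp [vac, flipL]

theorem TRD_map_inv (w : List Lab) : (w.map flipL).map flipL = w := by
  rw [List.map_map]
  have : flipL ∘ flipL = id := funext TRD_inv
  rw [this, List.map_id]

theorem TRD_pvac (n m : ℕ) (S' : St) (w : List Lab) :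
    w.map flipL ∈ paths n (vac m) (flip S') ↔ w ∈ paths n (vac m) S' := by
  have := TRD_paths n (vac m) S' w
  rwa [TRD_vac] at this

theorem TRD_all {n m : ℕ} {w : List Lab} (hw : w ∈ allPaths n (vac m)) :
    w.map flipL ∈ allPaths n (vac m) := by
  obtain ⟨S', h⟩ := (SURJ_mem_all _ _ _).1 hw
  exact (SURJ_mem_all _ _ _).2 ⟨flip S', (TRD_pvac n m S' w).2 h⟩

/-- the exchange of the components on the words -/
def TRD_f (n m : ℕ) : allPaths n (vac m) ≃ allPaths n (vac m) where
  toFun w := ⟨w.1.map flipL, TRD_all w.2⟩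
  invFun w := ⟨w.1.map flipL, TRD_all w.2⟩
  left_inv w := Subtype.ext (TRD_map_inv w.1)
  right_inv w := Subtype.ext (TRD_map_inv w.1)

theorem TRD_E {n m : ℕ} {w : List Lab} (hw : w ∈ allPaths n (vac m)) :
    TR_E n (vac m) (w.map flipL) = flip (TR_E n (vac m) w) := by
  obtain ⟨S', h⟩ := (SURJ_mem_all _ _ _).1 hw
  rw [TR_E_eq n _ S' w h, TR_E_eq n _ (flip S') _ ((TRD_pvac n m S' w).2 h)]

/-! ### the operators -/

section ops

variable {K : Type*} [Field K] {v : K} {x : Lab → K}

theorem TRD_xQ (v : K) (m : ℕ) (l : Lab) : xQ 1 v m (flipL l) = - xQ 1 v m l := by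
  obtain ⟨b, k⟩ := l
  cases b <;> simp [xQ, flipL]

theorem TRD_cA (hx : ∀ l, x (flipL l) = - x l) (a b : Lab) :
    cA v x (flipL a) (flipL b) = cA v x a b := by
  unfold cA
  rw [hx, hx, neg_div_neg_eq]

theorem TRD_cB (hx : ∀ l, x (flipL l) = - x l) (a b : Lab) :
    cB v x (flipL a) (flipL b) = cB v x a b := by
  unfold cB
  rw [TRD_cA hx, TRD_up]
  by_cases h : b = up 1 a
  · rw [if_pos (by rw [h]), if_pos h]
  · rw [if_neg (fun h' => h (TRD_inj h')), if_neg h]

theorem TRD_tw (hx : ∀ l, x (flipL l) = - x l) : ∀ (i : ℕ) (w : List Lab),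
    tw v x i (w.map flipL) = Finsupp.mapDomain (List.map flipL) (tw v x i w)
  | 0, [] => by simp [tw]
  | 0, [a] => by simp [tw]
  | 0, a :: b :: z => by
      simp only [List.map_cons, tw]
      rw [Finsupp.mapDomain_add, Finsupp.mapDomain_single, Finsupp.mapDomain_single, TRD_cA hx,
        TRD_cB hx]
      simp only [List.map_cons]
  | i + 1, [] => by simp [tw]
  | i + 1, a :: z => by
      simp only [List.map_cons, tw]
      rw [TRD_tw hx i z, ← Finsupp.mapDomain_comp, ← Finsupp.mapDomain_comp]
      rfl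

theorem TRD_op (v : K) (m i : ℕ) (w w' : List Lab) :
    opQ 1 v m i (Finsupp.single (w'.map flipL) 1) (w.map flipL) =
      (if i = 0 then -1 else 1) * opQ 1 v m i (Finsupp.single w' 1) w := by
  have hinj : Function.Injective (List.map flipL) := List.map_injective_iff.2 TRD_inj
  cases i with
  | zero =>
    simp only [opQ, Xop]
    rw [Finsupp.linearCombination_single, Finsupp.linearCombination_single, one_smul, one_smul,
      if_pos trivial]
    have h1 : ((w'.map flipL)[0]?).elim 0 (xQ 1 v m) = - (w'[0]?).elim 0 (xQ 1 v m) := by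
      cases w' with
      | nil => simp
      | cons a z => simp [TRD_xQ]
    rw [h1, Finsupp.single_apply, Finsupp.single_apply]
    by_cases h : w' = w
    · rw [if_pos (by rw [h]), if_pos h]; ring
    · rw [if_neg (fun h' => h (hinj h')), if_neg h]; ring
  | succ i =>
    simp only [opQ, Top]
    rw [Finsupp.linearCombination_single, Finsupp.linearCombination_single, one_smul, one_smul,
      if_neg (by omega), one_mul, TRD_tw (TRD_xQ v m) i w', Finsupp.mapDomain_apply hinj]

end ops

/-! ### block matrices -/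

section blk

variable {K : Type*} [Field K] {n : ℕ} {S : St} {M M' : Matrix (allPaths n S) (allPaths n S) K}

theorem TRD_blk : IsBlk n S M ↔
    ∀ w w', TR_E n S w.1 ≠ TR_E n S w'.1 → M w w' = 0 := by
  constructor
  · intro h w w' hne
    refine h w w' fun S' hS => hne ?_
    rw [TR_E_eq n S S' _ hS.1, TR_E_eq n S S' _ hS.2]
  · intro h w w' hS
    refine h w w' fun he => hS (TR_E n S w.1) ⟨TR_E_mem n S w.1 w.2, ?_⟩
    rw [he]
    exact TR_E_mem n S w'.1 w'.2

theorem TRD_blk_mul (hM : IsBlk n S M) (hM' : IsBlk n S M') : IsBlk n S (M * M') := by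
  rw [TRD_blk] at hM hM' ⊢
  intro w w' hne
  rw [Matrix.mul_apply]
  refine Finset.sum_eq_zero fun u _ => ?_
  by_cases h : TR_E n S w.1 = TR_E n S u.1
  · rw [hM' u w' (by rw [← h]; exact hne), mul_zero]
  · rw [hM w u h, zero_mul]

theorem TRD_blk_add (hM : IsBlk n S M) (hM' : IsBlk n S M') : IsBlk n S (M + M') := by
  intro w w' h
  rw [Matrix.add_apply, hM w w' h, hM' w w' h, add_zero]

theorem TRD_blk_smul (c : K) (hM : IsBlk n S M) : IsBlk n S (c • M) := by
  intro w w' h
  rw [Matrix.smul_apply, hM w w' h, smul_zero]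

theorem TRD_blk_one : IsBlk n S (1 : Matrix (allPaths n S) (allPaths n S) K) := by
  rw [TRD_blk]
  intro w w' hne
  rw [Matrix.one_apply, if_neg]
  rintro rfl
  exact hne rfl

theorem TRD_blk_J (f : {p : allPaths n S × allPaths n S // TR_E n S p.1.1 = TR_E n S p.2.1} → K) :
    IsBlk n S (TR_J (fun w : allPaths n S => TR_E n S w.1) f) := by
  rw [TRD_blk]
  intro w w' hne
  simp only [TR_J, LinearMap.coe_mk, AddHom.coe_mk]
  rw [dif_neg hne]

theorem TRD_JR (hM : IsBlk n S M) : TR_J (fun w : allPaths n S => TR_E n S w.1)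
    (TR_R (fun w : allPaths n S => TR_E n S w.1) M) = M := by
  rw [TRD_blk] at hM
  ext i j
  rw [TR_JR]
  split_ifs with h
  · rfl
  · exact (hM i j h).symm

theorem TRD_blk_op {Q v : K} (hv : GenQ Q v) (m i : ℕ) : IsBlk n S (mat n S (opQ Q v m i)) := by
  rw [TRD_blk]
  intro w w' hne
  by_contra h
  have h1 := Stab_opQ hv m n S (TR_E n S w'.1) i w'.1 (TR_E_mem n S w'.1 w'.2) w.1 h
  exact hne (TR_E_eq n S _ _ h1)

end blk

/-! ### two by two matrices -/

section two

variable {R : Type*} [Ring R]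

/-- the generators in the two by two matrices -/
def TRD_tau (t : ℕ → R) : ℕ → Matrix Bool Bool R
  | 0 => fun i j => if j = !i then 1 else 0
  | 1 => fun i j => if j = i then (if i then t 0 else t 1) else 0
  | k + 2 => fun i j => if j = i then t (k + 2) else 0

theorem TRD_tau_mul (t : ℕ → R) (k : ℕ) (X : Matrix Bool Bool R) (i j : Bool) :
    (TRD_tau t k * X) i j =
      if k = 0 then X (!i) j else (if k = 1 then (if i then t 0 else t 1) else t k) * X i j := by
  rw [Matrix.mul_apply, Fintype.sum_bool]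
  rcases k with _ | _ | k
  · cases i <;> simp [TRD_tau]
  · cases i <;> simp [TRD_tau]
  · cases i <;> simp [TRD_tau]

theorem TRD_word (t : ℕ → R) : ∀ (l : List ℕ) (i j : Bool), (l.map (TRD_tau t)).prod i j =
    if j = (i ^^ decide (Odd (l.count 0))) then ((dword i l).map t).prod else 0
  | [], i, j => by
      cases i <;> cases j <;> simp [dword]
  | 0 :: l, i, j => by
      rw [List.map_cons, List.prod_cons, TRD_tau_mul, if_pos rfl, TRD_word t l]
      have h1 : decide (Odd ((0 :: l).count 0)) = !decide (Odd (l.count 0)) := by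
        rw [List.count_cons_self]
        by_cases h : Odd (l.count 0)
        · have : ¬ Odd (l.count 0 + 1) := by
            rw [Nat.not_odd_iff_even]; exact h.add_one
          simp [h, this]
        · have : Odd (l.count 0 + 1) := by
            rw [Nat.not_odd_iff_even] at h; exact h.add_one
          simp [h, this]
      rw [h1]
      have h2 : (!i ^^ decide (Odd (l.count 0))) = (i ^^ !decide (Odd (l.count 0))) := by
        cases i <;> cases decide (Odd (l.count 0)) <;> rfl
      rw [h2]
      rfl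
  | 1 :: l, i, j => by
      rw [List.map_cons, List.prod_cons, TRD_tau_mul, if_neg one_ne_zero, if_pos rfl, TRD_word t l,
        List.count_cons_of_ne (by omega)]
      simp only [dword, List.map_cons, List.prod_cons]
      cases i <;> simp
  | (k + 2) :: l, i, j => by
      rw [List.map_cons, List.prod_cons, TRD_tau_mul, if_neg (by omega), if_neg (by omega),
        TRD_word t l, List.count_cons_of_ne (by omega)]
      simp only [dword, List.map_cons, List.prod_cons]
      split_ifs <;> simp

/-- the diagonal entries -/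
def TRD_d (t : ℕ → R) (k : ℕ) (p : Bool) : R := if k = 1 then (if p then t 0 else t 1) else t k

theorem TRD_diag (t : ℕ → R) (k : ℕ) (hk : 1 ≤ k) :
    TRD_tau t k = Matrix.diagonal (TRD_d t k) := by
  ext p q
  rw [Matrix.diagonal_apply]
  rcases k with _ | _ | k
  · omega
  · simp only [TRD_tau, TRD_d, zero_add, if_true, eq_comm]
  · simp only [TRD_tau, TRD_d, eq_comm]
    rw [if_neg (show ¬ 1 = k + 1 + 1 by omega)]

theorem TRD_swap (t : ℕ → R) (X : Matrix Bool Bool R) (i j : Bool) :
    (TRD_tau t 0 * X) i j = X (!i) j := by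
  rw [TRD_tau_mul, if_pos rfl]

theorem TRD_swap' (t : ℕ → R) (X : Matrix Bool Bool R) (i j : Bool) :
    (X * TRD_tau t 0) i j = X i (!j) := by
  rw [Matrix.mul_apply, Fintype.sum_bool]
  cases j <;> simp [TRD_tau]

theorem TRD_rel {K : Type*} [CommRing K] [Algebra K R] {c : K} {n : ℕ} (hn : 2 ≤ n) {t : ℕ → R}
    (h : RelD c n t) : RelQ (0 : K) c n (TRD_tau t) where
  quad0 _ := by
    ext i j
    rw [TRD_swap]
    cases i <;> cases j <;> simp [TRD_tau]
  quad i hi hi' := by
    rw [TRD_diag t i hi, Matrix.diagonal_mul_diagonal, ← Matrix.diagonal_one,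
      ← Matrix.diagonal_smul, Matrix.diagonal_add]
    congr 1
    funext p
    simp only [TRD_d, Pi.smul_apply]
    have h1 := h.quad i hi'
    split_ifs
    · exact h.quad 0 (by omega)
    · exact h.quad 1 (by omega)
    · exact h1
  braid i hi hi' := by
    rw [TRD_diag t i hi, TRD_diag t (i + 1) (by omega)]
    simp only [Matrix.diagonal_mul_diagonal]
    congr 1
    funext p
    simp only [TRD_d]
    rw [if_neg (show ¬ i + 1 = 1 by omega)]
    have h1 := h.braid i hi hi'
    split_ifs with h2
    · subst h2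
      exact h.braid0 (by omega)
    · subst h2
      exact h1
    · exact h1
  braid0 _ := by
    have h0 := h.comm01 (by omega)
    rw [TRD_diag t 1 le_rfl]
    ext p q
    rw [mul_assoc, mul_assoc, TRD_swap, Matrix.diagonal_mul, TRD_swap, mul_assoc, mul_assoc,
      Matrix.diagonal_mul, TRD_swap, Matrix.diagonal_mul, TRD_tau, Matrix.diagonal_apply]
    cases p <;> cases q <;> simp [TRD_d, h0]
  comm i j hij hj := by
    rcases Nat.eq_zero_or_pos i with rfl | hi
    · rw [TRD_diag t j (by omega)]
      ext p q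
      rw [TRD_swap, TRD_swap', Matrix.diagonal_apply, Matrix.diagonal_apply]
      have hj1 : ¬ j = 1 := by omega
      cases p <;> cases q <;> simp [TRD_d, hj1]
    · rw [TRD_diag t j (by omega), TRD_diag t i hi]
      simp only [Matrix.diagonal_mul_diagonal]
      congr 1
      funext p
      simp only [TRD_d]
      rw [if_neg (show ¬ j = 1 by omega)]
      have h1 := h.comm i j hi hij hj
      split_ifs with h2
      · exact h.comm0 j (by omega) hj
      · subst h2
        exact h1
      · exact h1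

end two

/-! ### words for the generators of type `D` -/

/-- a word in the generators of type `B` with a given rewriting -/
def TRD_lift : List ℕ → List ℕ
  | [] => []
  | 0 :: l => 0 :: 1 :: 0 :: TRD_lift l
  | (k + 1) :: l => (k + 1) :: TRD_lift l

theorem TRD_lift_dword : ∀ l : List ℕ, dword false (TRD_lift l) = l
  | [] => rfl
  | 0 :: l => by
      simp only [TRD_lift, dword, Bool.not_false, Bool.not_true, if_true]
      rw [TRD_lift_dword l]
  | 1 :: l => by
      simp only [TRD_lift, dword, zero_add]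
      rw [TRD_lift_dword l]
      rfl
  | (k + 2) :: l => by
      simp only [TRD_lift, dword]
      rw [TRD_lift_dword l]

theorem TRD_lift_even : ∀ l : List ℕ, Even ((TRD_lift l).count 0)
  | [] => by simp [TRD_lift]
  | 0 :: l => by
      simp only [TRD_lift]
      rw [List.count_cons_self, List.count_cons_of_ne (by omega), List.count_cons_self]
      exact (TRD_lift_even l).add_one.add_one
  | (k + 1) :: l => by
      simp only [TRD_lift]
      rw [List.count_cons_of_ne (by omega)]
      exact TRD_lift_even l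

theorem TRD_lift_lt {n : ℕ} (hn : 2 ≤ n) : ∀ l : List ℕ, (∀ i ∈ l, i < n) → ∀ i ∈ TRD_lift l, i < n
  | [], _, i, hi => by simp [TRD_lift] at hi
  | 0 :: l, h, i, hi => by
      simp only [TRD_lift, List.mem_cons] at hi
      rcases hi with hi | hi | hi | hi
      · omega
      · omega
      · omega
      · exact TRD_lift_lt hn l (fun j hj => h j (List.mem_cons_of_mem _ hj)) i hi
  | (k + 1) :: l, h, i, hi => by
      simp only [TRD_lift, List.mem_cons] at hi
      rcases hi with hi | hi
      · rw [hi]; exact h _ List.mem_cons_self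
      · exact TRD_lift_lt hn l (fun j hj => h j (List.mem_cons_of_mem _ hj)) i hi

/-! ### the exchange of the components on the block matrices -/

section theta

variable {K : Type} [Field K] {q : K} {n : ℕ}

theorem TRD_mat_flip (q : K) (n i : ℕ) :
    (mat n (vac n) (opQ 1 q n i)).submatrix (TRD_f n n) (TRD_f n n) =
      (if i = 0 then (-1 : K) else 1) • mat n (vac n) (opQ 1 q n i) := by
  ext w w'
  rw [Matrix.submatrix_apply, Matrix.smul_apply, smul_eq_mul]
  exact TRD_op q n i w.1 w'.1

theorem TRD_blk_sub {M : Matrix (allPaths n (vac n)) (allPaths n (vac n)) K}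
    (hM : IsBlk n (vac n) M) : IsBlk n (vac n) (M.submatrix (TRD_f n n) (TRD_f n n)) := by
  rw [TRD_blk] at hM ⊢
  intro w w' hne
  rw [Matrix.submatrix_apply]
  apply hM
  change TR_E n (vac n) (w.1.map flipL) ≠ TR_E n (vac n) (w'.1.map flipL)
  rw [TRD_E w.2, TRD_E w'.2]
  intro h
  apply hne
  rw [← TRD_flip_inv (TR_E n (vac n) w.1), h, TRD_flip_inv]

/-- signs -/
def TRD_D (R : Type*) [Ring R] : Matrix Bool Bool R := Matrix.diagonal fun p => if p then -1 else 1

theorem TRD_D_apply {R : Type*} [Ring R] (X : Matrix Bool Bool R) (i j : Bool) :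
    (TRD_D R * X * TRD_D R) i j = if i = j then X i j else - X i j := by
  unfold TRD_D
  rw [Matrix.mul_diagonal, Matrix.diagonal_mul]
  cases i <;> cases j <;> simp

theorem TRD_D_sq (R : Type*) [Ring R] : TRD_D R * TRD_D R = 1 := by
  unfold TRD_D
  rw [Matrix.diagonal_mul_diagonal, ← Matrix.diagonal_one]
  congr 1
  funext p
  cases p <;> simp

theorem TRD_theta {R : Type} [Ring R] [Algebra K R] (hgQ : GenQ (1 : K) q) (hn : 1 ≤ n) (t : ℕ → R)
    (φ : Matrix (allPaths n (vac n)) (allPaths n (vac n)) K →ₗ[K] Matrix Bool Bool R)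
    (hφ1 : φ 1 = 1)
    (hφm : ∀ M M', IsBlk n (vac n) M → IsBlk n (vac n) M' → φ (M * M') = φ M * φ M')
    (hφg : ∀ i < n, φ (mat n (vac n) (opQ 1 q n i)) = TRD_tau t i)
    (M : Matrix (allPaths n (vac n)) (allPaths n (vac n)) K) (hM : IsBlk n (vac n) M) :
    φ (M.submatrix (TRD_f n n) (TRD_f n n)) = TRD_D R * φ M * TRD_D R := by
  have h1 := HOMQ_all (HOMQ_hx hgQ n) n hn (vac n) M hM
  have h2 : IsBlk n (vac n) M ∧
      φ (M.submatrix (TRD_f n n) (TRD_f n n)) = TRD_D R * φ M * TRD_D R := by
    clear hM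
    induction h1 using Algebra.adjoin_induction with
    | mem X hX =>
      obtain ⟨i, hi, rfl⟩ := hX
      change IsBlk n (vac n) (mat n (vac n) (hop q (xQ 1 q n) i)) ∧
        φ ((mat n (vac n) (hop q (xQ 1 q n) i)).submatrix (TRD_f n n) (TRD_f n n)) =
        TRD_D R * φ (mat n (vac n) (hop q (xQ 1 q n) i)) * TRD_D R
      rw [← HOMQ_op]
      refine ⟨TRD_blk_op hgQ n i, ?_⟩
      rw [TRD_mat_flip, map_smul, hφg i hi]
      ext a b
      rw [TRD_D_apply, Matrix.smul_apply]
      by_cases h0 : i = 0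
      · subst h0
        rw [if_pos rfl]
        cases a <;> cases b <;> simp [TRD_tau]
      · rw [if_neg h0, one_smul, TRD_diag t i (by omega)]
        cases a <;> cases b <;> simp
    | algebraMap r =>
      rw [Algebra.algebraMap_eq_smul_one]
      refine ⟨TRD_blk_smul r TRD_blk_one, ?_⟩
      rw [Matrix.submatrix_smul]
      change φ (r • (1 : Matrix (allPaths n (vac n)) (allPaths n (vac n)) K).submatrix (TRD_f n n)
        (TRD_f n n)) = _
      rw [Matrix.submatrix_one_equiv, map_smul, hφ1, mul_smul_comm, mul_one, smul_mul_assoc,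
        TRD_D_sq]
    | add X Y _ _ hX hY =>
      refine ⟨TRD_blk_add hX.1 hY.1, ?_⟩
      rw [Matrix.submatrix_add]
      change φ (X.submatrix (TRD_f n n) (TRD_f n n) + Y.submatrix (TRD_f n n) (TRD_f n n)) = _
      rw [map_add, hX.2, hY.2, map_add, mul_add, add_mul]
    | mul X Y _ _ hX hY =>
      refine ⟨TRD_blk_mul hX.1 hY.1, ?_⟩
      rw [← Matrix.submatrix_mul_equiv X Y (TRD_f n n) (TRD_f n n) (TRD_f n n),
        hφm _ _ (TRD_blk_sub hX.1) (TRD_blk_sub hY.1), hX.2, hY.2, hφm _ _ hX.1 hY.1]
      have h3 := TRD_D_sq R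
      calc TRD_D R * φ X * TRD_D R * (TRD_D R * φ Y * TRD_D R)
          = TRD_D R * φ X * (TRD_D R * TRD_D R) * φ Y * TRD_D R := by simp only [mul_assoc]
        _ = TRD_D R * (φ X * φ Y) * TRD_D R := by rw [h3, mul_one, mul_assoc (TRD_D R)]
  exact h2.2

end theta

/-! ### the trace formula over a field -/

theorem TRD_core (hHOMQ : HOMQ_stmt) (hREPQ : REPQ_stmt) (hCNT : CNT_stmt) {K : Type} [Field K]
    {q : K} (hgen : Generic q) {n : ℕ} (hn : 2 ≤ n) {R : Type} [Ring R] [Algebra K R]
    [Module.Finite K R] {t : ℕ → R} (hrel : RelD (q - q⁻¹) n t)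
    (hdim : 2 * finrank K R = 2 ^ n * n.factorial)
    (hspan : Submodule.span K {y : R | ∃ l : List ℕ, (∀ i ∈ l, i < n) ∧ (l.map t).prod = y} = ⊤)
    (l₁ l₂ : List ℕ) (hl₁ : ∀ i ∈ l₁, i < n) (hl₂ : ∀ i ∈ l₂, i < n) (he₁ : Even (l₁.count 0))
    (he₂ : Even (l₂.count 0)) :
    2 * LinearMap.trace K R (LinearMap.mulLeft K ((dword false l₁).map t).prod ∘ₗ
      LinearMap.mulRight K ((dword false l₂).map t).prod) =
    ∑ S ∈ ends n (vac n), trP n (vac n) S (opWQ 1 q n l₁) * trP n (vac n) S (opWQ 1 q n l₂) +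
    ∑ S ∈ (ends n (vac n)).filter (fun S => flip S = S),
      trJ n (vac n) S (opWQ 1 q n l₁) * trJ n (vac n) S (opWQ 1 q n l₂) := by
  classical
  have hgQ : GenQ (1 : K) q := GenQ_one hgen
  have hn1 : 1 ≤ n := by omega
  obtain ⟨φ, hφ1, hφm, hφg⟩ := hHOMQ K 1 q hgQ n n hn1 le_rfl (Matrix Bool Bool R) (TRD_tau t)
    (by rw [inv_one, sub_self]; exact TRD_rel hn hrel)
  have hREP := (hREPQ K 1 q hgQ n n hn1 le_rfl).2
  have hth := TRD_theta hgQ hn1 t φ hφ1 hφm hφg
  -- words
  have hword : ∀ l : List ℕ, (∀ i ∈ l, i < n) → IsBlk n (vac n) (mat n (vac n) (opWQ 1 q n l)) ∧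
      φ (mat n (vac n) (opWQ 1 q n l)) = (l.map (TRD_tau t)).prod := by
    intro l hl
    rw [hREP l hl]
    induction l with
    | nil => exact ⟨TRD_blk_one, hφ1⟩
    | cons a l ih =>
      obtain ⟨h1, h2⟩ := ih (fun i hi => hl i (List.mem_cons_of_mem _ hi))
      rw [List.map_cons, List.prod_cons, List.map_cons, List.prod_cons]
      have h3 : IsBlk n (vac n) (mat n (vac n) (opQ 1 q n a)) := TRD_blk_op hgQ n a
      exact ⟨TRD_blk_mul h3 h1, by rw [hφm _ _ h3 h1, h2, hφg a (hl a List.mem_cons_self)]⟩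
  -- words with an even number of letters 0
  have hdiag : ∀ l : List ℕ, Even (l.count 0) →
      (l.map (TRD_tau t)).prod = Matrix.diagonal fun p => ((dword p l).map t).prod := by
    intro l hl
    ext i j
    rw [TRD_word, Matrix.diagonal_apply]
    have h1 : decide (Odd (l.count 0)) = false := by
      rw [decide_eq_false_iff_not, Nat.not_odd_iff_even]
      exact hl
    rw [h1, Bool.xor_false]
    by_cases h : i = j
    · rw [if_pos h.symm, if_pos h]
    · rw [if_neg (Ne.symm h), if_neg h]
  set e : allPaths n (vac n) → St := fun w => TR_E n (vac n) w.1 with he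
  -- the isomorphism
  set Ψ : ({p : allPaths n (vac n) × allPaths n (vac n) // e p.1 = e p.2} → K) →ₗ[K] R × R :=
    ((Matrix.entryLinearMap K R false false).prod (Matrix.entryLinearMap K R false true)) ∘ₗ φ ∘ₗ
      TR_J e with hΨ
  have hΨa : ∀ f, Ψ f = (φ (TR_J e f) false false, φ (TR_J e f) false true) := fun f => rfl
  have hsur : Function.Surjective Ψ := by
    have h1 : ∀ x : R, (x, (0 : R)) ∈ LinearMap.range Ψ := by
      intro x
      have hx : x ∈ (LinearMap.range Ψ).comap (LinearMap.inl K R R) := by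
        have hx' : x ∈ Submodule.span K {y : R | ∃ l : List ℕ, (∀ i ∈ l, i < n) ∧
            (l.map t).prod = y} := by rw [hspan]; exact Submodule.mem_top
        refine Submodule.span_le.mpr ?_ hx'
        rintro _ ⟨l, hl, rfl⟩
        obtain ⟨hb, hw⟩ := hword (TRD_lift l) (TRD_lift_lt hn l hl)
        rw [hdiag _ (TRD_lift_even l)] at hw
        refine ⟨TR_R e (mat n (vac n) (opWQ 1 q n (TRD_lift l))), ?_⟩
        rw [hΨa, TRD_JR hb, hw, Matrix.diagonal_apply_eq, TRD_lift_dword,
          Matrix.diagonal_apply_ne _ (by simp)]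
        rfl
      exact hx
    have h2 : ∀ x : R, ((0 : R), x) ∈ LinearMap.range Ψ := by
      intro x
      have hx : x ∈ (LinearMap.range Ψ).comap (LinearMap.inr K R R) := by
        have hx' : x ∈ Submodule.span K {y : R | ∃ l : List ℕ, (∀ i ∈ l, i < n) ∧
            (l.map t).prod = y} := by rw [hspan]; exact Submodule.mem_top
        refine Submodule.span_le.mpr ?_ hx'
        rintro _ ⟨l, hl, rfl⟩
        obtain ⟨hb, hw⟩ := hword (TRD_lift l) (TRD_lift_lt hn l hl)
        rw [hdiag _ (TRD_lift_even l)] at hw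
        have hb0 : IsBlk n (vac n) (mat n (vac n) (opQ 1 q n 0)) := TRD_blk_op hgQ n 0
        refine ⟨TR_R e (mat n (vac n) (opWQ 1 q n (TRD_lift l)) * mat n (vac n) (opQ 1 q n 0)), ?_⟩
        rw [hΨa, TRD_JR (TRD_blk_mul hb hb0), hφm _ _ hb hb0, hφg 0 (by omega), hw, TRD_swap',
          TRD_swap', Bool.not_false, Bool.not_true, Matrix.diagonal_apply_eq, TRD_lift_dword,
          Matrix.diagonal_apply_ne _ (by simp)]
        rfl
      exact hx
    rw [← LinearMap.range_eq_top, eq_top_iff]
    rintro ⟨x, y⟩ _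
    have h3 : (x, y) = (x, (0 : R)) + ((0 : R), y) := by simp
    rw [h3]
    exact add_mem (h1 x) (h2 y)
  have hcard : finrank K ({p : allPaths n (vac n) × allPaths n (vac n) // e p.1 = e p.2} → K) =
      2 ^ n * n.factorial := by
    rw [finrank_fintype_fun_eq_card,
      Fintype.card_subtype, Finset.card_filter, ← Finset.univ_product_univ, Finset.sum_product]
    have h1 := TR_sum (R := ℕ) n (vac n) (fun _ => 1) (fun _ => 1)
    have h2 : ∀ x y : allPaths n (vac n), (if e (x, y).1 = e (x, y).2 then 1 else 0) =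
        (if TR_E n (vac n) x.1 = TR_E n (vac n) y.1 then 1 * 1 else 0) := fun x y => rfl
    simp only [h2]
    rw [h1, ← hCNT n n le_rfl]
    refine Finset.sum_congr rfl fun S' _ => ?_
    simp [sq]
  have hinj : Function.Injective Ψ :=
    (LinearMap.injective_iff_surjective_of_finrank_eq_finrank (f := Ψ)
      (by rw [hcard, Module.finrank_prod, ← hdim]; ring)).mpr hsur
  set E := LinearEquiv.ofBijective Ψ ⟨hinj, hsur⟩ with hE
  have hEa : ∀ f, E f = Ψ f := fun f => rfl
  set ψ : (R × R) →ₗ[K] Matrix (allPaths n (vac n)) (allPaths n (vac n)) K :=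
    TR_J e ∘ₗ E.symm.toLinearMap with hψ
  have hψinj : Function.Injective ψ := by
    intro x y h
    exact E.symm.injective (TR_J_inj e h)
  have hψb : ∀ z, IsBlk n (vac n) (ψ z) := fun z => TRD_blk_J _
  have hψφ : ∀ z, φ (ψ z) false false = z.1 ∧ φ (ψ z) false true = z.2 := by
    intro z
    have h1 : E (E.symm z) = z := LinearEquiv.apply_symm_apply E z
    rw [hEa, hΨa] at h1
    exact ⟨congrArg Prod.fst h1, congrArg Prod.snd h1⟩
  have huni : ∀ (M : Matrix (allPaths n (vac n)) (allPaths n (vac n)) K) (z : R × R),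
      IsBlk n (vac n) M → φ M false false = z.1 → φ M false true = z.2 → M = ψ z := by
    intro M z hM h1 h2
    have h3 : E (TR_R e M) = z := by
      rw [hEa, hΨa, TRD_JR hM, h1, h2]
    change M = TR_J e (E.symm z)
    rw [← h3, LinearEquiv.symm_apply_apply, TRD_JR hM]
  have hψr : ∀ f, TR_J e f ∈ LinearMap.range ψ := by
    intro f
    refine ⟨E f, ?_⟩
    change TR_J e (E.symm (E f)) = _
    rw [LinearEquiv.symm_apply_apply]
  -- the two words
  obtain ⟨hP, hP'⟩ := hword l₁ hl₁
  obtain ⟨hQ, hQ'⟩ := hword l₂ hl₂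
  rw [hdiag l₁ he₁] at hP'
  rw [hdiag l₂ he₂] at hQ'
  set P := mat n (vac n) (opWQ 1 q n l₁) with hPdef
  set Q := mat n (vac n) (opWQ 1 q n l₂) with hQdef
  set a : Bool → R := fun p => ((dword p l₁).map t).prod with ha
  set b : Bool → R := fun p => ((dword p l₂).map t).prod with hb
  set σ := TRD_f n n with hσ
  have hent : ∀ (X : Matrix (allPaths n (vac n)) (allPaths n (vac n)) K), IsBlk n (vac n) X →
      ∀ i j, φ (P * (X * Q)) i j = a i * (φ X i j * b j) := by
    intro X hX i j
    rw [hφm _ _ hP (TRD_blk_mul hX hQ), hφm _ _ hX hQ, hP', hQ', Matrix.diagonal_mul,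
      Matrix.mul_diagonal]
  set u := LinearMap.trace K R (LinearMap.mulLeft K (a false) ∘ₗ LinearMap.mulRight K (b false))
    with hu
  set u' := LinearMap.trace K R (LinearMap.mulLeft K (a false) ∘ₗ LinearMap.mulRight K (b true))
    with hu'
  -- first trace
  have T1 : u + u' =
      ∑ S ∈ ends n (vac n), trP n (vac n) S (opWQ 1 q n l₁) * trP n (vac n) S (opWQ 1 q n l₂) := by
    set F : Matrix (allPaths n (vac n)) (allPaths n (vac n)) K →ₗ[K]
        Matrix (allPaths n (vac n)) (allPaths n (vac n)) K :=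
      TR_J e ∘ₗ TR_R e ∘ₗ LinearMap.mulLeft K P ∘ₗ LinearMap.mulRight K Q with hF
    have htr := TR_trace ψ hψinj
      (LinearMap.prodMap (LinearMap.mulLeft K (a false) ∘ₗ LinearMap.mulRight K (b false))
        (LinearMap.mulLeft K (a false) ∘ₗ LinearMap.mulRight K (b true))) F
      (by
        intro z
        change TR_J e (TR_R e (P * (ψ z * Q))) = _
        rw [TRD_JR (TRD_blk_mul hP (TRD_blk_mul (hψb z) hQ))]
        apply huni _ _ (TRD_blk_mul hP (TRD_blk_mul (hψb z) hQ))
        · rw [hent _ (hψb z), (hψφ z).1]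
          rfl
        · rw [hent _ (hψb z), (hψφ z).2]
          rfl)
      (fun y => hψr _)
    rw [LinearMap.trace_prodMap'] at htr
    rw [hu, hu', ← htr, TR_trace_mat (fun i j => e i = e j) P Q F (by
      intro X i j
      change TR_J e (TR_R e (P * (X * Q))) i j = _
      rw [TR_JR, ← Matrix.mul_assoc])]
    exact TR_sum n (vac n) (fun w => (opWQ 1 q n l₁) (Finsupp.single w 1) w)
      (fun w => (opWQ 1 q n l₂) (Finsupp.single w 1) w)
  -- second trace
  have T2 : u + -u' =
      ∑ S ∈ (ends n (vac n)).filter (fun S => flip S = S),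
      trJ n (vac n) S (opWQ 1 q n l₁) * trJ n (vac n) S (opWQ 1 q n l₂) := by
    set F : Matrix (allPaths n (vac n)) (allPaths n (vac n)) K →ₗ[K]
        Matrix (allPaths n (vac n)) (allPaths n (vac n)) K :=
      TR_J e ∘ₗ TR_R e ∘ₗ LinearMap.mulLeft K (P.submatrix id σ) ∘ₗ
        LinearMap.mulRight K (Q.submatrix σ id) with hF
    have hσσ : ∀ w, σ (σ w) = w := fun w => Subtype.ext (TRD_map_inv w.1)
    have hconj : ∀ X : Matrix (allPaths n (vac n)) (allPaths n (vac n)) K,
        P.submatrix id σ * (X * Q.submatrix σ id) = P * (X.submatrix σ σ * Q) := by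
      intro X
      have e1 : X.submatrix σ σ * Q = (X * Q.submatrix σ id).submatrix σ id := by
        rw [← Matrix.submatrix_mul_equiv X (Q.submatrix σ id) σ σ id, Matrix.submatrix_submatrix]
        congr 1
        ext w w'
        simp [hσσ]
      have e2 : P = (P.submatrix id σ).submatrix id σ := by
        ext w w'
        simp [hσσ]
      rw [e1]
      conv_rhs => rw [e2]
      rw [Matrix.submatrix_mul_equiv (P.submatrix id σ) (X * Q.submatrix σ id) id σ id,
        Matrix.submatrix_id_id]
    have htr := TR_trace ψ hψinj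
      (LinearMap.prodMap (LinearMap.mulLeft K (a false) ∘ₗ LinearMap.mulRight K (b false))
        (-(LinearMap.mulLeft K (a false) ∘ₗ LinearMap.mulRight K (b true)))) F
      (by
        intro z
        change TR_J e (TR_R e (P.submatrix id σ * (ψ z * Q.submatrix σ id))) = _
        have hz := TRD_blk_sub (hψb z)
        rw [hconj, TRD_JR (TRD_blk_mul hP (TRD_blk_mul hz hQ))]
        apply huni _ _ (TRD_blk_mul hP (TRD_blk_mul hz hQ))
        · rw [hent _ hz, hth _ (hψb z), TRD_D_apply, if_pos rfl, (hψφ z).1]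
          rfl
        · rw [hent _ hz, hth _ (hψb z), TRD_D_apply, if_neg (by simp), (hψφ z).2, neg_mul,
            mul_neg]
          rfl)
      (fun y => hψr _)
    rw [LinearMap.trace_prodMap', map_neg] at htr
    rw [hu, hu', ← htr, TR_trace_mat (fun i j => e i = e j) (P.submatrix id σ) (Q.submatrix σ id) F
      (by
        intro X i j
        change TR_J e (TR_R e (P.submatrix id σ * (X * Q.submatrix σ id))) i j = _
        rw [TR_JR, ← Matrix.mul_assoc])]
    have h1 := TR_sum n (vac n)
      (fun w => (opWQ 1 q n l₁) (Finsupp.single (w.map flipL) 1) w)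
      (fun w => (opWQ 1 q n l₂) (Finsupp.single w 1) (w.map flipL))
    refine h1.trans ?_
    rw [Finset.sum_filter]
    refine Finset.sum_congr rfl fun S' _ => ?_
    by_cases hS : flip S' = S'
    · rw [if_pos hS]
      unfold trJ
      congr 1
      refine Finset.sum_nbij' (List.map flipL) (List.map flipL) ?_ ?_ ?_ ?_ ?_
      · intro w hw
        have := (TRD_pvac n n S' w).2 hw
        rwa [hS] at this
      · intro w hw
        have := (TRD_pvac n n S' w).2 hw
        rwa [hS] at this
      · intro w _; exact TRD_map_inv w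
      · intro w _; exact TRD_map_inv w
      · intro w _
        rw [TRD_map_inv]
    · rw [if_neg hS]
      have h2 : ∑ w ∈ paths n (vac n) S',
          (opWQ 1 q n l₁) (Finsupp.single (w.map flipL) 1) w = 0 := by
        refine Finset.sum_eq_zero fun w hw => ?_
        have hwa : w ∈ allPaths n (vac n) := (SURJ_mem_all _ _ _).2 ⟨S', hw⟩
        have h3 := (TRD_blk.1 hP) ⟨w, hwa⟩ ⟨w.map flipL, TRD_all hwa⟩ (by
          change TR_E n (vac n) w ≠ TR_E n (vac n) (w.map flipL)
          rw [TRD_E hwa, TR_E_eq n (vac n) S' w hw]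
          exact fun h => hS h.symm)
        exact h3
      rw [h2, zero_mul]
  rw [← T1, ← T2, hu]
  ring

/-! ### the Hecke algebra -/

theorem TRD_map {K K' R R' : Type*} [CommRing K] [CommRing K'] [Ring R] [Ring R'] [Algebra K R]
    [Algebra K' R'] (c : K) (c' : K') (n : ℕ) (τ : ℕ → R) (f : R →+* R')
    (hf : ∀ x, f (c • x) = c' • f x) (h : RelD c n τ) : RelD c' n fun i => f (τ i) where
  quad i hi := by rw [← map_mul, h.quad i hi, map_add, map_one, hf]
  braid i hi hi' := by simp only [← map_mul]; rw [h.braid i hi hi']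
  braid0 hn := by simp only [← map_mul]; rw [h.braid0 hn]
  comm01 hn := by simp only [← map_mul]; rw [h.comm01 hn]
  comm0 j hj hj' := by simp only [← map_mul]; rw [h.comm0 j hj hj']
  comm i j hi hij hj := by simp only [← map_mul]; rw [h.comm i j hi hij hj]

/-- the products of the generators span the extended algebra -/
theorem TRD_top (hTWG : TWG_stmt) (hGEND : GEND_stmt) (n : ℕ) (H : Type) [Ring H] [Algebra A H]
    (T : Basis (WD n) A H) (hT : GHecke (genD n) T) (K : Type) [Field K] [Algebra A K] :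
    Submodule.span K {y : K ⊗[A] H | ∃ l : List ℕ, (∀ i ∈ l, i < n) ∧
      (l.map fun i => (1 : K) ⊗ₜ[A] T (gD n i)).prod = y} = ⊤ := by
  rw [eq_top_iff]
  intro x _
  have hx : x ∈ Submodule.span K (Set.range (Algebra.TensorProduct.basis K T)) := by
    rw [Basis.span_eq]; exact Submodule.mem_top
  refine Submodule.span_mono ?_ hx
  rintro _ ⟨w, rfl⟩
  rw [Algebra.TensorProduct.basis_apply]
  have hne : {k | ∃ l : List (Fin n), l.length = k ∧ (l.map (genD n)).prod = w}.Nonempty := by
    obtain ⟨l, hl⟩ := hGEND n w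
    exact ⟨l.length, l, rfl, hl⟩
  obtain ⟨l, hl1, hl2⟩ := Nat.sInf_mem hne
  have hlen : glen (genD n) (l.map (genD n)).prod = l.length := by
    rw [hl2]; exact hl1.symm
  have h1 := (hTWG (Fin n) (WD n) (genD n) (hGEND n) H T hT).2 l hlen
  refine ⟨l.map Fin.val, ?_, ?_⟩
  · intro i hi
    obtain ⟨j, -, rfl⟩ := List.mem_map.mp hi
    exact j.isLt
  · rw [← hl2, h1]
    have h2 : (1 : K) ⊗ₜ[A] (l.map fun i => T (genD n i)).prod =
        (l.map fun i => (1 : K) ⊗ₜ[A] T (genD n i)).prod := by
      have := map_list_prod (Algebra.TensorProduct.includeRight : H →ₐ[A] K ⊗[A] H)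
        (l.map fun i => T (genD n i))
      rw [List.map_map] at this
      exact this
    rw [h2, List.map_map]
    congr 1
    refine List.map_congr_left fun i _ => ?_
    simp [gD]

/-- the trace formula in type `D_n` -/
theorem TRD (hTWG : TWG_stmt) (hCARDD : CARDD_stmt) (hHRELD : HRELD_stmt) (hHOMQ : HOMQ_stmt)
    (hREPQ : REPQ_stmt) (hCNT : CNT_stmt) (hGEND : GEND_stmt) : TRD_stmt := by
  classical
  intro n H _ _ T hn hT K _ _ hinj l₁ l₂ hl₁ hl₂ he₁ he₂
  have hgen := TR_generic K hinj
  have hfinW : Finite (WD n) := by infer_instance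
  have hfinA : Module.Finite A H := Module.Finite.of_basis T
  have hfreeA : Module.Free A H := Module.Free.of_basis T
  have hfin : Module.Finite K (K ⊗[A] H) :=
    Module.Finite.of_basis (Algebra.TensorProduct.basis K T)
  have hdim : 2 * finrank K (K ⊗[A] H) = 2 ^ n * n.factorial := by
    rw [finrank_eq_nat_card_basis (Algebra.TensorProduct.basis K T), hCARDD n (by omega)]
  have hrel : RelD (algebraMap A K v - (algebraMap A K v)⁻¹) n
      fun i => (1 : K) ⊗ₜ[A] T (gD n i) := by
    have h1 := hHRELD n H T hn hT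
    have h2 : algebraMap A K (v - vi) = algebraMap A K v - (algebraMap A K v)⁻¹ := by
      have h3 : algebraMap A K vi = (algebraMap A K v)⁻¹ := by
        have h4 := TR_zpow K hinj (-1)
        rw [zpow_neg, zpow_one] at h4
        exact h4.symm
      rw [map_sub, h3]
    refine TRD_map (v - vi) _ n (fun i => T (gD n i))
      (Algebra.TensorProduct.includeRight : H →ₐ[A] K ⊗[A] H).toRingHom ?_ h1
    intro x
    change (Algebra.TensorProduct.includeRight : H →ₐ[A] K ⊗[A] H) ((v - vi) • x) =
      (algebraMap A K v - (algebraMap A K v)⁻¹) •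
        (Algebra.TensorProduct.includeRight : H →ₐ[A] K ⊗[A] H) x
    rw [map_smul, ← h2, algebraMap_smul]
  have hcore := TRD_core hHOMQ hREPQ hCNT hgen hn hrel hdim (TRD_top hTWG hGEND n H T hT K)
    l₁ l₂ hl₁ hl₂ he₁ he₂
  rw [← hcore]
  have hprod : ∀ l : List ℕ, (l.map fun i => (1 : K) ⊗ₜ[A] T (gD n i)).prod =
      (1 : K) ⊗ₜ[A] (l.map fun i => T (gD n i)).prod := by
    intro l
    have := map_list_prod (Algebra.TensorProduct.includeRight : H →ₐ[A] K ⊗[A] H)
      (l.map fun i => T (gD n i))
    rw [List.map_map] at this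
    exact this.symm
  rw [hprod, hprod]
  set a := ((dword false l₁).map fun i => T (gD n i)).prod with ha
  set b := ((dword false l₂).map fun i => T (gD n i)).prod with hb
  have hbc : (LinearMap.mulLeft A a ∘ₗ LinearMap.mulRight A b).baseChange K =
      LinearMap.mulLeft K ((1 : K) ⊗ₜ[A] a) ∘ₗ LinearMap.mulRight K ((1 : K) ⊗ₜ[A] b) := by
    ext x
    simp
  rw [← LinearMap.trace_baseChange, hbc]

end Pool.Agent.helper27.PC
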